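import Pool.Agent.H912Z.IsoMain

/-!
A class `K` whose isomorphism problem is properly `Π⁰₃` but not `Π⁰₃`-complete. Its index set is
`Π⁰₂`, so the complexity comes from the isomorphism relation and not from membership in `K`.
-/

namespace Pool.Agent.Results.MP_be00aa_lc.AProperPi3

open Pool.Agent.H912Z.IsoP

theorem result : ∃ (L : Lang) (K : Str → Prop), (∀ A B, K A → Iso L A B → K B) ∧
    IsPi2 (IndexSet L K) ∧ IsPi3 (IsoProblem L K) ∧ ¬ IsSigma3 (IsoProblem L K) ∧
    ¬ ∀ X : ℕ → Prop, IsPi3 X →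
      ∃ f : ℕ → ℕ × ℕ, Computable f ∧ ∀ x, X x ↔ IsoProblem L K (f x) :=
  main

end Pool.Agent.Results.MP_be00aa_lc.AProperPi3
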